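import Mathlib

/-!
# Absolutely continuous measures and iterated sequential closures (MP_1e6c42_an, Q1: yes)

If `μ` lies in the `α`-th iterated weak* sequential closure of the finitely supported
probability measures on a compact Hausdorff space `K`, and `ν` is a signed Radon measure which is
absolutely continuous with respect to `μ`, then `ν` lies in the `α`-th iterated weak* sequential
closure of the finitely supported signed measures.
-/

open MeasureTheory Filter Topology Set
open scoped ENNReal NNReal

set_option linter.unusedSectionVars false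

namespace Pool.Agent.Results.MP_1e6c42_an.AbsContSeq

section Defs

variable {K : Type*} [TopologicalSpace K] [MeasurableSpace K]

/-- A signed Borel measure is Radon if its total variation is a regular measure. -/
def IsRadon (ν : SignedMeasure K) : Prop := ν.totalVariation.Regular

/-- The duality pairing `⟨ν, g⟩ = ∫ g dν = ∫ g dν⁺ - ∫ g dν⁻`. -/
noncomputable def pairing (ν : SignedMeasure K) (g : C(K, ℝ)) : ℝ :=
  (∫ x, g x ∂ν.toJordanDecomposition.posPart) - ∫ x, g x ∂ν.toJordanDecomposition.negPart

/-- `Seq A`: the signed Radon measures that are weak* limits of sequences of elements of `A`. -/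
def Seq (A : Set (SignedMeasure K)) : Set (SignedMeasure K) :=
  {ν | IsRadon ν ∧ ∃ u : ℕ → SignedMeasure K, (∀ n, u n ∈ A) ∧
    ∀ g : C(K, ℝ), Tendsto (fun n => pairing (u n) g) atTop (𝓝 (pairing ν g))}

/-- The iterated sequential closures `Seq^α(A)`. -/
noncomputable def SeqIter (A : Set (SignedMeasure K)) (α : Ordinal.{0}) :
    Set (SignedMeasure K) :=
  Ordinal.limitRecOn (motive := fun _ => Set (SignedMeasure K)) α A (fun _ S => Seq S)
    (fun β _ IH => ⋃ (γ : Ordinal.{0}) (h : γ < β), IH γ h)

/-- The set `Δ_K` of Dirac measures. -/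
noncomputable def diracs (K : Type*) [MeasurableSpace K] : Set (SignedMeasure K) :=
  Set.range fun x : K => (Measure.dirac x).toSignedMeasure

end Defs

section Basic

variable {K : Type*} [TopologicalSpace K] [CompactSpace K] [T2Space K]
  [MeasurableSpace K] [BorelSpace K]

theorem seqIter_zero (A : Set (SignedMeasure K)) : SeqIter A 0 = A := by
  simp [SeqIter]

theorem seqIter_succ (A : Set (SignedMeasure K)) (α : Ordinal.{0}) :
    SeqIter A (Order.succ α) = Seq (SeqIter A α) := by
  simp [SeqIter]

theorem seqIter_limit (A : Set (SignedMeasure K)) (α : Ordinal.{0})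
    (h : Order.IsSuccLimit α) :
    SeqIter A α = ⋃ (γ : Ordinal.{0}) (_ : γ < α), SeqIter A γ := by
  unfold SeqIter
  rw [Ordinal.limitRecOn_limit _ _ _ _ h]

theorem integrable_cont (m : Measure K) [IsFiniteMeasure m] (g : C(K, ℝ)) :
    Integrable (fun x => g x) m := by
  refine Integrable.of_bound (C := ‖g‖) g.continuous.measurable.aestronglyMeasurable ?_
  exact Eventually.of_forall fun x => g.norm_coe_le_norm x

/-- The pairing of a difference of two finite positive measures. -/
theorem pairing_sub (a b : Measure K) [IsFiniteMeasure a] [IsFiniteMeasure b] (g : C(K, ℝ)) :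
    pairing (a.toSignedMeasure - b.toSignedMeasure) g = (∫ x, g x ∂a) - ∫ x, g x ∂b := by
  set ν := a.toSignedMeasure - b.toSignedMeasure with hν
  set j := ν.toJordanDecomposition with hj
  have h1 : j.posPart.toSignedMeasure - j.negPart.toSignedMeasure
      = a.toSignedMeasure - b.toSignedMeasure := by
    have := ν.toSignedMeasure_toJordanDecomposition
    rw [← hj] at this
    simpa [JordanDecomposition.toSignedMeasure] using this
  have h2 : j.posPart + b = a + j.negPart := by
    rw [← Measure.toSignedMeasure_eq_toSignedMeasure_iff, Measure.toSignedMeasure_add,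
      Measure.toSignedMeasure_add]
    have := sub_eq_sub_iff_add_eq_add.mp h1
    rw [this]
  have h3 : (∫ x, g x ∂(j.posPart + b)) = ∫ x, g x ∂(a + j.negPart) := by rw [h2]
  rw [integral_add_measure (integrable_cont _ _) (integrable_cont _ _),
    integral_add_measure (integrable_cont _ _) (integrable_cont _ _)] at h3
  unfold pairing
  rw [← hj]
  linarith

theorem pairing_toSignedMeasure (a : Measure K) [IsFiniteMeasure a] (g : C(K, ℝ)) :
    pairing a.toSignedMeasure g = ∫ x, g x ∂a := by
  have := pairing_sub a (0 : Measure K) g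
  simpa using this

theorem pairing_withDensity (m : Measure K) [IsFiniteMeasure m] {f : K → ℝ}
    (hf : Integrable f m) (g : C(K, ℝ)) :
    pairing (m.withDensityᵥ f) g = ∫ x, f x * g x ∂m := by
  have : IsFiniteMeasure (m.withDensity fun x => ENNReal.ofReal (f x)) :=
    isFiniteMeasure_withDensity_ofReal hf.2
  have : IsFiniteMeasure (m.withDensity fun x => ENNReal.ofReal (-f x)) :=
    isFiniteMeasure_withDensity_ofReal hf.neg.2
  rw [withDensityᵥ_eq_withDensity_pos_part_sub_withDensity_neg_part hf, pairing_sub]
  have key : ∀ h : K → ℝ, Integrable h m →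
      (∫ x, g x ∂(m.withDensity fun x => ENNReal.ofReal (h x))) = ∫ x, max (h x) 0 * g x ∂m := by
    intro h hh
    rw [integral_withDensity_eq_integral_toReal_smul₀]
    · rfl
    · exact hh.1.aemeasurable.ennreal_ofReal
    · exact Eventually.of_forall fun x => ENNReal.ofReal_lt_top
  rw [key f hf, key (fun x => - f x) hf.neg, ← integral_sub]
  · refine integral_congr_ae (Eventually.of_forall fun x => ?_)
    simp only
    rcases le_total 0 (f x) with h | h
    · rw [max_eq_left h, max_eq_right (by linarith)]; ring
    · rw [max_eq_right h, max_eq_left (by linarith)]; ring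
  · exact (hf.pos_part).mul_bdd (c := ‖g‖) g.continuous.measurable.aestronglyMeasurable
      (Eventually.of_forall fun x => g.norm_coe_le_norm x)
  · exact (hf.neg.pos_part).mul_bdd (c := ‖g‖) g.continuous.measurable.aestronglyMeasurable
      (Eventually.of_forall fun x => g.norm_coe_le_norm x)

/-- A finite measure absolutely continuous w.r.t. a finite regular measure is regular. -/
theorem regular_of_ac (m ρ : Measure K) [IsFiniteMeasure m] [IsFiniteMeasure ρ] [m.Regular]
    (h : ρ ≪ m) : ρ.Regular := by
  have hρ : m.withDensity (ρ.rnDeriv m) = ρ := Measure.withDensity_rnDeriv_eq ρ m h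
  have hint : ∫⁻ x, ρ.rnDeriv m x ∂m ≠ ∞ := (Measure.lintegral_rnDeriv_lt_top ρ m).ne
  have : ρ.InnerRegularCompactLTTop := by
    constructor
    rintro B ⟨hB, -⟩ r hr
    -- choose `ε` with `r + ε ≤ ρ B`
    obtain ⟨ε, hε0, hε⟩ : ∃ ε : ℝ≥0∞, ε ≠ 0 ∧ r + ε < ρ B := by
      obtain ⟨ε, h1, h2⟩ := ENNReal.lt_iff_exists_add_pos_lt.mp hr
      exact ⟨ε, by simpa using h1.ne', h2⟩
    obtain ⟨δ, hδ, hδ'⟩ := exists_pos_setLIntegral_lt_of_measure_lt hint hε0
    obtain ⟨C, hCB, hC, hCm⟩ := hB.exists_isCompact_sdiff_lt (μ := m) (measure_ne_top m B) hδ.ne'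
    refine ⟨C, hCB, hC, ?_⟩
    have h1 : ρ (B \ C) < ε := by
      rw [← hρ, withDensity_apply _ (hB.diff hC.measurableSet)]
      exact hδ' _ hCm
    have h2 : ρ B ≤ ρ C + ρ (B \ C) := by
      calc ρ B ≤ ρ (C ∪ (B \ C)) := measure_mono (by intro x hx; by_cases hxC : x ∈ C <;> simp [*])
        _ ≤ _ := measure_union_le _ _
    by_contra hcon
    push Not at hcon
    have : ρ B ≤ r + ε := h2.trans (add_le_add hcon h1.le)
    exact absurd (this.trans_lt hε) (lt_irrefl _)
  infer_instance

theorem regular_add (a b : Measure K) [IsFiniteMeasure a] [IsFiniteMeasure b] [a.Regular]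
    [b.Regular] : (a + b).Regular := by
  infer_instance

theorem regular_dirac (x : K) : (Measure.dirac x).Regular := by
  have : (Measure.dirac x).InnerRegular := by
    constructor
    intro B hB r hr
    by_cases hx : x ∈ B
    · refine ⟨{x}, by simpa using hx, isCompact_singleton, ?_⟩
      rw [Measure.dirac_apply' x hB] at hr
      simpa [hx] using hr
    · rw [Measure.dirac_apply' x hB] at hr
      simp [hx] at hr
  infer_instance


/-- A weak* limit of positive measures is positive. -/
theorem limit_positive (m : ℕ → Measure K) [∀ n, IsFiniteMeasure (m n)] (ν : SignedMeasure K)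
    (hν : IsRadon ν)
    (hlim : ∀ g : C(K, ℝ), Tendsto (fun n => pairing (m n).toSignedMeasure g) atTop
      (𝓝 (pairing ν g))) :
    ∃ (l : Measure K) (_ : IsFiniteMeasure l), l.Regular ∧ ν = l.toSignedMeasure := by
  set j := ν.toJordanDecomposition with hj
  have htv : ν.totalVariation = j.posPart + j.negPart := rfl
  have hνr : (j.posPart + j.negPart).Regular := by rw [← htv]; exact hν
  have hposr : j.posPart.Regular :=
    regular_of_ac (j.posPart + j.negPart) _ (Measure.absolutelyContinuous_of_le
      (Measure.le_add_right le_rfl))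
  have hnegr : j.negPart.Regular :=
    regular_of_ac (j.posPart + j.negPart) _ (Measure.absolutelyContinuous_of_le
      (Measure.le_add_left le_rfl))
  have hnn : ∀ g : C(K, ℝ), (∀ x, 0 ≤ g x) → 0 ≤ pairing ν g := by
    intro g hg
    refine ge_of_tendsto' (hlim g) fun n => ?_
    rw [pairing_toSignedMeasure]
    exact integral_nonneg hg
  -- the negative part vanishes
  obtain ⟨S, hS, hS1, hS2⟩ := j.mutuallySingular
  -- `posPart S = 0`, `negPart Sᶜ = 0`
  have hneg0 : j.negPart S = 0 := by
    by_contra hne
    have hpos : 0 < (j.negPart S).toReal :=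
      ENNReal.toReal_pos hne (measure_ne_top _ _)
    set c := (j.negPart S).toReal with hc
    -- compact subset with large negPart
    obtain ⟨C, hCS, hC, hCm⟩ := hS.exists_isCompact_sdiff_lt (μ := j.negPart)
      (measure_ne_top _ S) (ε := ENNReal.ofReal (c / 4)) (by
        have : 0 < ENNReal.ofReal (c / 4) := ENNReal.ofReal_pos.mpr (by linarith)
        exact this.ne')
    have hCpos : j.posPart C = 0 := measure_mono_null hCS hS1
    obtain ⟨U, hCU, hU, hUm⟩ := C.exists_isOpen_lt_of_lt (μ := j.posPart)
      (ENNReal.ofReal (c / 4)) (by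
        rw [hCpos]; exact ENNReal.ofReal_pos.mpr (by linarith))
    obtain ⟨g, hg1, hg2, hg3⟩ := exists_continuous_zero_one_of_isClosed (s := Uᶜ) (t := C)
      hU.isClosed_compl hC.isClosed (by
        rw [disjoint_left]; intro x hx hxC; exact hx (hCU hxC))
    have h1 : (∫ x, g x ∂j.posPart) ≤ (j.posPart U).toReal := by
      have : (∫ x, g x ∂j.posPart) ≤ ∫ x, U.indicator (fun _ => (1 : ℝ)) x ∂j.posPart := by
        refine integral_mono (integrable_cont _ g) ?_ fun x => ?_
        · exact (integrable_const (1 : ℝ)).indicator hU.measurableSet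
        · by_cases hx : x ∈ U
          · simpa [hx] using (hg3 x).2
          · have : g x = 0 := hg1 hx
            simp [hx, this]
      rwa [integral_indicator hU.measurableSet, setIntegral_const, smul_eq_mul, mul_one] at this
    have h2 : (j.negPart C).toReal ≤ ∫ x, g x ∂j.negPart := by
      have : (∫ x, C.indicator (fun _ => (1 : ℝ)) x ∂j.negPart) ≤ ∫ x, g x ∂j.negPart := by
        refine integral_mono ?_ (integrable_cont _ g) fun x => ?_
        · exact (integrable_const (1 : ℝ)).indicator hC.measurableSet
        · by_cases hx : x ∈ C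
          · have : g x = 1 := hg2 hx
            simp [hx, this]
          · simpa [hx] using (hg3 x).1
      rwa [integral_indicator hC.measurableSet, setIntegral_const, smul_eq_mul, mul_one] at this
    have h3 : (j.posPart U).toReal < c / 4 := by
      have := (ENNReal.toReal_lt_toReal (measure_ne_top _ _) ENNReal.ofReal_ne_top).mpr hUm
      rwa [ENNReal.toReal_ofReal (by linarith)] at this
    have h4 : (j.negPart (S \ C)).toReal < c / 4 := by
      have := (ENNReal.toReal_lt_toReal (measure_ne_top _ _) ENNReal.ofReal_ne_top).mpr hCm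
      rwa [ENNReal.toReal_ofReal (by linarith)] at this
    have h5 : c ≤ (j.negPart C).toReal + (j.negPart (S \ C)).toReal := by
      have hle : j.negPart S ≤ j.negPart C + j.negPart (S \ C) := by
        calc j.negPart S ≤ j.negPart (C ∪ (S \ C)) := measure_mono (by
              intro x hx; by_cases hxC : x ∈ C <;> simp [*])
          _ ≤ _ := measure_union_le _ _
      have := ENNReal.toReal_mono (by finiteness) hle
      rwa [ENNReal.toReal_add (measure_ne_top _ _) (measure_ne_top _ _)] at this
    have h6 := hnn g fun x => (hg3 x).1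
    unfold pairing at h6
    rw [← hj] at h6
    linarith
  have hneg : j.negPart = 0 := by
    rw [← Measure.measure_univ_eq_zero]
    have : j.negPart univ ≤ j.negPart S + j.negPart Sᶜ := by
      rw [← union_compl_self S]; exact measure_union_le _ _
    simpa [hneg0, hS2] using this
  refine ⟨j.posPart, inferInstance, hposr, ?_⟩
  have h := ν.toSignedMeasure_toJordanDecomposition
  rw [← hj] at h
  rw [← h, JordanDecomposition.toSignedMeasure]
  simp only [hneg, Measure.toSignedMeasure_zero, sub_zero]


/-- `μ` is a positive Radon measure all of whose `L¹`-densities are in `B`. -/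
def Good (B : Set (SignedMeasure K)) (μ : SignedMeasure K) : Prop :=
  ∃ (m : Measure K) (_ : IsFiniteMeasure m), m.Regular ∧ μ = m.toSignedMeasure ∧
    ∀ f : K → ℝ, Integrable f m → m.withDensityᵥ f ∈ B

theorem good_base (μ : SignedMeasure K) (hμ : μ ∈ convexHull ℝ (diracs K)) :
    Good (Submodule.span ℝ (diracs K) : Set (SignedMeasure K)) μ := by
  have hsub : convexHull ℝ (diracs K) ⊆
      {μ | Good (Submodule.span ℝ (diracs K) : Set (SignedMeasure K)) μ} := by
    refine convexHull_min ?_ ?_
    · rintro _ ⟨x, rfl⟩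
      refine ⟨Measure.dirac x, inferInstance, regular_dirac x, rfl, fun f hf => ?_⟩
      have : (Measure.dirac x).withDensityᵥ f = f x • (Measure.dirac x).toSignedMeasure := by
        ext B hB
        rw [withDensityᵥ_apply hf hB, smul_apply,
          Measure.toSignedMeasure_apply_measurable hB]
        classical
        rw [restrict_dirac' hB]
        by_cases hx : x ∈ B
        · simp [hx, Measure.real, Measure.dirac_apply' x hB]
        · simp [hx, Measure.real, Measure.dirac_apply' x hB]
      rw [this]
      exact Submodule.smul_mem _ _ (Submodule.subset_span ⟨x, rfl⟩)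
    · rw [convex_iff_forall_pos]
      rintro _ ⟨m₁, i₁, r₁, rfl, h₁⟩ _ ⟨m₂, i₂, r₂, rfl, h₂⟩ a b ha hb hab
      let a' : ℝ≥0 := ⟨a, ha.le⟩
      let b' : ℝ≥0 := ⟨b, hb.le⟩
      have ha' : a' ≠ 0 := by
        intro h; exact ha.ne' (congrArg NNReal.toReal h)
      have hb' : b' ≠ 0 := by
        intro h; exact hb.ne' (congrArg NNReal.toReal h)
      refine ⟨a' • m₁ + b' • m₂, inferInstance, inferInstance, ?_, fun f hf => ?_⟩
      · rw [Measure.toSignedMeasure_add, Measure.toSignedMeasure_smul,
          Measure.toSignedMeasure_smul]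
        rfl
      · rw [integrable_add_measure] at hf
        have hf1 : Integrable f m₁ := by
          have : Integrable f ((a' : ℝ≥0∞) • m₁) := hf.1
          rwa [integrable_smul_measure (by simpa using ha') (by simp)] at this
        have hf2 : Integrable f m₂ := by
          have : Integrable f ((b' : ℝ≥0∞) • m₂) := hf.2
          rwa [integrable_smul_measure (by simpa using hb') (by simp)] at this
        have : (a' • m₁ + b' • m₂).withDensityᵥ f
            = a • m₁.withDensityᵥ f + b • m₂.withDensityᵥ f := by
          ext B hB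
          rw [withDensityᵥ_apply (integrable_add_measure.mpr hf) hB, Measure.restrict_add,
            integral_add_measure, Measure.restrict_smul, Measure.restrict_smul,
            integral_smul_nnreal_measure, integral_smul_nnreal_measure]
          · rw [add_apply, smul_apply, smul_apply,
              withDensityᵥ_apply hf1 hB, withDensityᵥ_apply hf2 hB]
            rfl
          · exact hf.1.restrict
          · exact hf.2.restrict
        rw [this]
        exact Submodule.add_mem _ (Submodule.smul_mem _ _ (h₁ f hf1))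
          (Submodule.smul_mem _ _ (h₂ f hf2))
  exact hsub hμ

/-- A slow diagonal sequence. -/
theorem exists_slow (P : ℕ → ℕ → Prop) (h : ∀ k, ∀ᶠ n in atTop, P k n) :
    ∃ κ : ℕ → ℕ, Tendsto κ atTop atTop ∧ ∀ᶠ n in atTop, P (κ n) n := by
  choose N hN using fun k => eventually_atTop.mp (h k)
  let M : ℕ → ℕ := fun k => k + ∑ i ∈ Finset.range (k + 1), N i
  have hMN : ∀ k, N k ≤ M k := fun k => by
    have := Finset.single_le_sum (f := N) (fun i _ => Nat.zero_le _)
      (Finset.mem_range.mpr (Nat.lt_succ_self k))
    exact this.trans (Nat.le_add_left _ _)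
  refine ⟨fun n => Nat.findGreatest (fun k => M k ≤ n) n, ?_, ?_⟩
  · refine tendsto_atTop.mpr fun k => ?_
    filter_upwards [eventually_ge_atTop (M k)] with n hn
    exact Nat.le_findGreatest ((Nat.le_add_right k _).trans hn) hn
  · filter_upwards [eventually_ge_atTop (M 0)] with n hn
    have h1 : M (Nat.findGreatest (fun k => M k ≤ n) n) ≤ n :=
      Nat.findGreatest_spec (P := fun k => M k ≤ n) (Nat.zero_le n) hn
    exact hN _ _ ((hMN _).trans h1)

theorem good_succ (A B : Set (SignedMeasure K)) (hAB : ∀ μ ∈ A, Good B μ) :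
    ∀ μ ∈ Seq A, Good (Seq B) μ := by
  rintro μ ⟨hμ, u, hu, hlim⟩
  choose m hm1 hm2 hm3 hm4 using fun n => hAB (u n) (hu n)
  obtain ⟨l, hl, hlr, rfl⟩ := limit_positive m μ hμ (by simpa only [← hm3] using hlim)
  refine ⟨l, hl, hlr, rfl, fun f hf => ?_⟩
  have hint : ∀ g : C(K, ℝ), Tendsto (fun n => ∫ x, g x ∂(m n)) atTop (𝓝 (∫ x, g x ∂l)) := by
    intro g
    have := hlim g
    simp only [hm3, pairing_toSignedMeasure] at this
    exact this
  refine ⟨?_, ?_⟩
  · -- Radon
    have hfin : IsFiniteMeasure (SignedMeasure.totalVariation (l.withDensityᵥ f)) := by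
      unfold SignedMeasure.totalVariation; infer_instance
    have h1 := Measure.withDensityᵥ_absolutelyContinuous l f
    have h2 := (SignedMeasure.absolutelyContinuous_ennreal_iff _ _).mp h1
    rw [VectorMeasure.ennrealToMeasure_toENNRealVectorMeasure] at h2
    exact regular_of_ac l _ h2
  · -- approximation of the density
    have hwr : l.WeaklyRegular := inferInstance
    have happ : ∀ k : ℕ, ∃ g : C(K, ℝ), (∫ x, |f x - g x| ∂l) ≤ 1 / ((k : ℝ) + 1) := by
      intro k
      obtain ⟨g, hg, -⟩ := hf.exists_boundedContinuous_integral_sub_le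
        (ε := 1 / ((k : ℝ) + 1)) (by positivity)
      exact ⟨g.toContinuousMap, hg⟩
    choose F hF using happ
    -- slow diagonal
    obtain ⟨κ, hκ, hκ'⟩ := exists_slow
      (fun k n => ∀ i ≤ k, ∀ j ≤ k,
        |(∫ x, |F i x - F j x| ∂(m n)) - ∫ x, |F i x - F j x| ∂l| < 1 / ((k : ℝ) + 1)) (by
      intro k
      have : ∀ i ∈ Finset.range (k + 1), ∀ j ∈ Finset.range (k + 1), ∀ᶠ n in atTop,
          |(∫ x, |F i x - F j x| ∂(m n)) - ∫ x, |F i x - F j x| ∂l| < 1 / ((k : ℝ) + 1) := by
        intro i _ j _
        have h := hint |F i - F j|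
        rw [Metric.tendsto_nhds] at h
        have h' := h (1 / ((k : ℝ) + 1)) (by positivity)
        simpa [Real.dist_eq] using h'
      have h2 : ∀ᶠ n in atTop, ∀ i ∈ Finset.range (k + 1), ∀ j ∈ Finset.range (k + 1),
          |(∫ x, |F i x - F j x| ∂(m n)) - ∫ x, |F i x - F j x| ∂l| < 1 / ((k : ℝ) + 1) := by
        rw [Filter.eventually_all_finset]
        intro i hi
        rw [Filter.eventually_all_finset]
        intro j hj
        exact this i hi j hj
      filter_upwards [h2] with n hn i hi j hj
      exact hn i (Finset.mem_range.mpr (by omega)) j (Finset.mem_range.mpr (by omega)))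
    refine ⟨fun n => (m n).withDensityᵥ (F (κ n)), fun n => hm4 n _ (integrable_cont _ _), ?_⟩
    intro g
    have e1 : ∀ n, pairing ((m n).withDensityᵥ (F (κ n))) g = ∫ x, F (κ n) x * g x ∂(m n) :=
      fun n => pairing_withDensity _ (integrable_cont _ _) g
    simp only [e1]
    rw [pairing_withDensity l hf g]
    -- the estimate
    have est : ∀ (ρ : Measure K) (_ : IsFiniteMeasure ρ) (a b : K → ℝ), Integrable a ρ →
        Integrable b ρ →
        |(∫ x, a x * g x ∂ρ) - ∫ x, b x * g x ∂ρ| ≤ ‖g‖ * ∫ x, |a x - b x| ∂ρ := by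
      intro ρ _ a b ha hb
      have ha' : Integrable (fun x => a x * g x) ρ := ha.mul_bdd (c := ‖g‖)
        g.continuous.measurable.aestronglyMeasurable
        (Eventually.of_forall fun x => g.norm_coe_le_norm x)
      have hb' : Integrable (fun x => b x * g x) ρ := hb.mul_bdd (c := ‖g‖)
        g.continuous.measurable.aestronglyMeasurable
        (Eventually.of_forall fun x => g.norm_coe_le_norm x)
      rw [← integral_sub ha' hb', ← integral_const_mul]
      refine (abs_integral_le_integral_abs).trans (integral_mono (ha'.sub hb').abs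
        ((ha.sub hb).abs.const_mul _) fun x => ?_)
      have : |a x * g x - b x * g x| = |g x| * |a x - b x| := by
        rw [← abs_mul]; congr 1; ring
      simp only
      rw [this]
      exact mul_le_mul_of_nonneg_right (g.norm_coe_le_norm x) (abs_nonneg _)
    rw [Metric.tendsto_nhds]
    intro ε hε
    -- choose `j`
    obtain ⟨j, hj⟩ : ∃ j : ℕ, ‖g‖ * (4 / ((j : ℝ) + 1)) < ε / 2 := by
      have : Tendsto (fun j : ℕ => ‖g‖ * (4 / ((j : ℝ) + 1))) atTop (𝓝 0) := by
        have h1 : Tendsto (fun j : ℕ => (j : ℝ) + 1) atTop atTop :=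
          tendsto_atTop_add_const_right _ _ tendsto_natCast_atTop_atTop
        have h2 := (tendsto_const_nhds (x := (4 : ℝ))).div_atTop h1
        simpa using h2.const_mul ‖g‖
      exact ((this.eventually (gt_mem_nhds (half_pos hε))).exists)
    have hconv := hint (F j * g)
    rw [Metric.tendsto_nhds] at hconv
    filter_upwards [hκ', hκ.eventually_ge_atTop j, hconv (ε / 2) (half_pos hε)] with n hn1 hn2 hn3
    have s1 : |(∫ x, F (κ n) x * g x ∂(m n)) - ∫ x, F j x * g x ∂(m n)|
        ≤ ‖g‖ * ∫ x, |F (κ n) x - F j x| ∂(m n) :=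
      est (m n) inferInstance _ _ (integrable_cont _ _) (integrable_cont _ _)
    have s2 : |(∫ x, F j x * g x ∂l) - ∫ x, f x * g x ∂l| ≤ ‖g‖ * ∫ x, |F j x - f x| ∂l :=
      est l inferInstance _ _ (integrable_cont _ _) hf
    have s3 : (∫ x, |F j x - f x| ∂l) ≤ 1 / ((j : ℝ) + 1) := by
      have := hF j
      simpa [abs_sub_comm] using this
    have s4 : (∫ x, |F (κ n) x - f x| ∂l) ≤ 1 / ((κ n : ℝ) + 1) := by
      have := hF (κ n)
      simpa [abs_sub_comm] using this
    have s5 : (∫ x, |F (κ n) x - F j x| ∂l) ≤
        (∫ x, |F (κ n) x - f x| ∂l) + ∫ x, |F j x - f x| ∂l := by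
      have i1 : Integrable (fun x => |F (κ n) x - f x|) l := ((integrable_cont l _).sub hf).abs
      have i2 : Integrable (fun x => |F j x - f x|) l := ((integrable_cont l _).sub hf).abs
      have i3 : Integrable (fun x => |F (κ n) x - F j x|) l :=
        ((integrable_cont l _).sub (integrable_cont l _)).abs
      rw [← integral_add i1 i2]
      refine integral_mono i3 (i1.add i2) fun x => ?_
      calc |F (κ n) x - F j x| ≤ |F (κ n) x - f x| + |f x - F j x| := abs_sub_le _ _ _
        _ = _ := by rw [abs_sub_comm (f x)]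
    have s6 := hn1 (κ n) le_rfl j hn2
    have s7 : 1 / ((κ n : ℝ) + 1) ≤ 1 / ((j : ℝ) + 1) := by
      apply one_div_le_one_div_of_le (by positivity)
      have : (j : ℝ) ≤ κ n := by exact_mod_cast hn2
      linarith
    have s8 : (∫ x, |F (κ n) x - F j x| ∂(m n)) ≤ 3 / ((j : ℝ) + 1) := by
      have h1 := (abs_lt.mp s6).2
      have h2 : (3 : ℝ) / ((j : ℝ) + 1) = 1 / ((j : ℝ) + 1) + 1 / ((j : ℝ) + 1)
        + 1 / ((j : ℝ) + 1) := by ring
      rw [h2]
      linarith
    have s9 : |(∫ x, F j x * g x ∂(m n)) - ∫ x, F j x * g x ∂l| < ε / 2 := by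
      simpa [Real.dist_eq] using hn3
    rw [Real.dist_eq]
    have hgn : 0 ≤ ‖g‖ := norm_nonneg _
    calc |(∫ x, F (κ n) x * g x ∂(m n)) - ∫ x, f x * g x ∂l|
        ≤ |(∫ x, F (κ n) x * g x ∂(m n)) - ∫ x, F j x * g x ∂(m n)|
          + |(∫ x, F j x * g x ∂(m n)) - ∫ x, F j x * g x ∂l|
          + |(∫ x, F j x * g x ∂l) - ∫ x, f x * g x ∂l| := by
          have := abs_sub_le (∫ x, F (κ n) x * g x ∂(m n)) (∫ x, F j x * g x ∂(m n))
            (∫ x, f x * g x ∂l)
          have := abs_sub_le (∫ x, F j x * g x ∂(m n)) (∫ x, F j x * g x ∂l)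
            (∫ x, f x * g x ∂l)
          linarith
      _ < ‖g‖ * (3 / ((j : ℝ) + 1)) + ε / 2 + ‖g‖ * (1 / ((j : ℝ) + 1)) := by
          have t1 := s1.trans (mul_le_mul_of_nonneg_left s8 hgn)
          have t2 := s2.trans (mul_le_mul_of_nonneg_left s3 hgn)
          linarith
      _ = ‖g‖ * (4 / ((j : ℝ) + 1)) + ε / 2 := by ring
      _ < ε := by linarith

theorem good_all (α : Ordinal.{0}) : ∀ μ ∈ SeqIter (convexHull ℝ (diracs K)) α,
    Good (SeqIter (Submodule.span ℝ (diracs K) : Set (SignedMeasure K)) α) μ := by
  induction α using Ordinal.limitRecOn with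
  | zero =>
    intro μ hμ
    rw [seqIter_zero] at hμ ⊢
    exact good_base μ hμ
  | add_one α ih =>
    intro μ hμ
    rw [← Order.succ_eq_add_one, seqIter_succ] at hμ ⊢
    exact good_succ _ _ ih μ hμ
  | limit α hα ih =>
    intro μ hμ
    rw [seqIter_limit _ _ hα] at hμ
    simp only [mem_iUnion] at hμ
    obtain ⟨γ, hγ, hμγ⟩ := hμ
    obtain ⟨m, i, hr, hm, h⟩ := ih γ hγ μ hμγ
    refine ⟨m, i, hr, hm, fun f hf => ?_⟩
    rw [seqIter_limit _ _ hα]
    simp only [mem_iUnion]
    exact ⟨γ, hγ, h f hf⟩

end Basic

/-- **Q1, answered affirmatively** (for every ordinal `α`, in particular for `α < ω₁`). -/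
theorem result (K : Type*) [TopologicalSpace K] [CompactSpace K] [T2Space K]
    [MeasurableSpace K] [BorelSpace K] (α : Ordinal.{0})
    (μ : SignedMeasure K) (hμ : μ ∈ SeqIter (convexHull ℝ (diracs K)) α)
    (ν : SignedMeasure K) (_hν : IsRadon ν)
    (hac : ∀ B : Set K, MeasurableSet B → μ.totalVariation B = 0 → ν.totalVariation B = 0) :
    ν ∈ SeqIter (Submodule.span ℝ (diracs K) : Set (SignedMeasure K)) α := by
  obtain ⟨m, i, hr, rfl, h⟩ := good_all α μ hμ
  have hac' : ν.totalVariation ≪ m := by
    refine Measure.AbsolutelyContinuous.mk fun B hB hB0 => hac B hB ?_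
    let j : JordanDecomposition K :=
      { posPart := m, negPart := 0, posPart_finite := i, negPart_finite := inferInstance,
        mutuallySingular := Measure.MutuallySingular.zero_right }
    have hj : m.toSignedMeasure.toJordanDecomposition = j := by
      apply SignedMeasure.toJordanDecomposition_eq
      simp [j, JordanDecomposition.toSignedMeasure]
    rw [SignedMeasure.totalVariation, hj]
    simpa [j] using hB0
  have h1 : ν ≪ᵥ m.toENNRealVectorMeasure := by
    rw [SignedMeasure.absolutelyContinuous_ennreal_iff,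
      VectorMeasure.ennrealToMeasure_toENNRealVectorMeasure]
    exact hac'
  rw [SignedMeasure.absolutelyContinuous_iff_withDensityᵥ_rnDeriv_eq] at h1
  rw [← h1]
  exact h _ (SignedMeasure.integrable_rnDeriv ν m)

end Pool.Agent.Results.MP_1e6c42_an.AbsContSeq
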